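import Pool.Agent.Lib.MP_e7d961_lc.SC.Stm
import Pool.Agent.Lib.MP_e7d961_lc.Asm

/-!
Assembly (`MP_e7d961_lc`, the graph `HC`).
-/

namespace SDich.SC

open Finset HerCo CookLevin N68a2faeb

/-- all the statements -/
structure AllC : Prop where
  dgl : S_dgl
  onto : S_onto
  cv1 : S_cv1
  cv2 : S_cv2
  cvd : S_cvd
  hdeg : S_hdeg
  hconn : S_hconn
  npg : S_npg
  pnp : S_pnp
  sg1 : S_sg1
  sg2 : S_sg2
  sg3 : S_sg3
  srch : S_srch
  simp0 : S_simp0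
  p1d : S_p1d
  p1a : S_p1a
  p1b : S_p1b
  p1c : S_p1c
  p2a : S_p2a
  p2b : S_p2b
  p2c : S_p2c
  p2d : S_p2d
  p2e : S_p2e
  p3 : S_p3
  alg1 : S_alg1
  alg2 : S_alg2
  alg3 : S_alg3
  fps : S_fps
  fpa1 : S_fpa1
  fpa2 : S_fpa2
  fpa3 : S_fpa3
  fpa4 : S_fpa4
  rvi : S_rvi
  actc : S_actc
  snd1 : S_snd1
  snd2 : S_snd2
  snd3 : S_snd3
  xx : S_xx
  cmp1 : S_cmp1
  cmp2 : S_cmp2
  cmp3 : S_cmp3
  cd : S_cd
  vts : S_vts
  rvt : S_rvt
  rz : S_rz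
  fpv : S_fpv
  fpr : S_fpr
  fpc : S_fpc

/-- covering projections of simple graphs to `HC` -/
theorem cvs_iff (S : AllC) (V : Type) [Fintype V] (G : SimpleGraph V) :
    (∃ f γ, Cvs G f γ) ↔ Loc G ∧ ∀ u, ¬ OddN (L2 G) u := by
  classical
  rw [← S.p3 S.sg1 S.sg2 V G]
  constructor
  · rintro ⟨f, γ, h⟩
    refine ⟨S.p1a S.p1d S.hdeg V G f γ h, fun v => bitsH (f v), ?_, ?_, ?_⟩
    · exact (S.p1b S.p1d S.hdeg V G f γ h).1
    · exact (S.p1b S.p1d S.hdeg V G f γ h).2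
    · exact S.p1c S.sg2 S.p1d S.hdeg V G f γ h
  · rintro ⟨hL, β, hβ⟩
    obtain ⟨col, hc⟩ := S.p2e S.sg1 V G β hβ
    obtain ⟨h1, h2⟩ := S.p2a V G β col hL hβ hc
    refine ⟨fP G β, γP G β col, h1, h2, fun v e => ?_⟩
    rcases hL v with h | h | h | h | h
    · exact S.p2b V G β col hL hβ hc v e h.1
    · exact S.p2c V G β col hL hβ hc v e (Or.inl h.1)
    · exact S.p2c V G β col hL hβ hc v e (Or.inr (Or.inl h.1))
    · exact S.p2c V G β col hL hβ hc v e (Or.inr (Or.inr h.1))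
    · exact S.p2d V G β col hL hβ hc v e h.1

/-- the algorithm is correct -/
theorem algB_eq (S0 : AllS) (S : AllC) : CoverSimple HC = algB := by
  funext s
  rw [Bool.eq_iff_iff, coverSimple_iff]
  have hc := S0.codeb s
  have key : ∀ h : IsCode s, (ordB s = true ∧ injB s = true) ↔ (graphOf s h).Simple := by
    intro h
    rw [(hc.2 h).1, (hc.2 h).2]
    rfl
  unfold algB
  simp only [Bool.and_eq_true]
  constructor
  · rintro ⟨h, hs, hcov⟩
    have h1 := (key h).2 hs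
    have h2 := (S.simp0 S.dgl S.onto S.cv1 S.cv2 S.hconn _ hs).1 hcov
    obtain ⟨h3, h4⟩ := (cvs_iff S _ _).1 h2.2
    exact ⟨⟨⟨⟨hc.1.2 h, h1.1⟩, h1.2⟩, (S.alg1 s h hs).2.2.2.2 h3⟩,
      (S.alg3 S.alg1 S.alg2 S.sg3 S.srch s h hs).2 h4⟩
  · rintro ⟨⟨⟨⟨h, h1⟩, h2⟩, h3⟩, h4⟩
    have h' := hc.1.1 h
    have hs := (key h').1 ⟨h1, h2⟩
    refine ⟨h', hs, (S.simp0 S.dgl S.onto S.cv1 S.cv2 S.hconn _ hs).2
      ⟨⟨(⟨0, h'.1⟩ : Fin (numV s))⟩, (cvs_iff S _ _).2 ⟨(S.alg1 s h' hs).2.2.2.1 h3,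
        (S.alg3 S.alg1 S.alg2 S.sg3 S.srch s h' hs).1 h4⟩⟩⟩

/-- simple inputs -/
theorem simple_mem_P (S0 : AllS) (S : AllC) : CoverSimple HC ∈ P := by
  show IsPolyTime (CoverSimple HC)
  rw [algB_eq S0 S, isPolyTime_bool]
  exact S.fpa4 S0.fpcb S.fps S.fpa1 S.fpa3

/-- the graph of an instance is a yes-instance iff the instance is solvable -/
theorem inst_iff (S : AllC) (nv : ℕ) (T : List (ℕ × ℕ × ℕ)) (hv : 0 < nv) (hT : T ≠ [])
    (hb : ∀ t ∈ T, t.1 < nv ∧ t.2.1 < nv ∧ t.2.2 < nv) :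
    CoverGeneral HC (theCode2 nv T) = true ↔
      ∃ t : ℕ → Bool, ∀ a ∈ T, One (t a.1) (t a.2.1) (t a.2.2) := by
  obtain ⟨h, φ, Γ, hΓ⟩ := S.rz S.rvi S.cd S.vts S.rvt nv T hv hT hb
  rw [coverGeneral_iff]
  have hocc : ∀ k : Fin T.length, ((occL nv T hv k 0 : ℕ) = (T.get k).1 ∧
      (occL nv T hv k 1 : ℕ) = (T.get k).2.1) ∧ (occL nv T hv k 2 : ℕ) = (T.get k).2.2 := by
    intro k
    have := hb _ (List.get_mem T k)
    have h0 : T.getD k (0, 0, 0) = T.get k := by simp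
    refine ⟨⟨?_, ?_⟩, ?_⟩ <;> simp only [occL, occT, h0] <;> rw [Nat.mod_eq_of_lt] <;>
      simp <;> simp at this <;> tauto
  have hiff : (∃ t : Fin nv → Bool, ∀ k, One (t (occL nv T hv k 0)) (t (occL nv T hv k 1))
      (t (occL nv T hv k 2))) ↔ ∃ t : ℕ → Bool, ∀ a ∈ T, One (t a.1) (t a.2.1) (t a.2.2) := by
    constructor
    · rintro ⟨t, ht⟩
      refine ⟨fun n => if h : n < nv then t ⟨n, h⟩ else false, fun a ha => ?_⟩
      obtain ⟨k, rfl⟩ := List.get_of_mem ha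
      have := ht k
      have hk := hocc k
      have e0 : occL nv T hv k 0 = ⟨(T.get k).1, by rw [← hk.1.1]; exact (occL nv T hv k 0).2⟩ :=
        Fin.ext hk.1.1
      have e1 : occL nv T hv k 1 = ⟨(T.get k).2.1, by rw [← hk.1.2]; exact (occL nv T hv k 1).2⟩ :=
        Fin.ext hk.1.2
      have e2 : occL nv T hv k 2 = ⟨(T.get k).2.2, by rw [← hk.2]; exact (occL nv T hv k 2).2⟩ :=
        Fin.ext hk.2
      have b := hb _ ha
      have g0 : (if h : (T.get k).1 < nv then t ⟨(T.get k).1, h⟩ else false) =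
          t (occL nv T hv k 0) := by rw [dif_pos b.1, e0]
      have g1 : (if h : (T.get k).2.1 < nv then t ⟨(T.get k).2.1, h⟩ else false) =
          t (occL nv T hv k 1) := by rw [dif_pos b.2.1, e1]
      have g2 : (if h : (T.get k).2.2 < nv then t ⟨(T.get k).2.2, h⟩ else false) =
          t (occL nv T hv k 2) := by rw [dif_pos b.2.2, e2]
      show One (if h : (T.get k).1 < nv then t ⟨(T.get k).1, h⟩ else false)
        (if h : (T.get k).2.1 < nv then t ⟨(T.get k).2.1, h⟩ else false)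
        (if h : (T.get k).2.2 < nv then t ⟨(T.get k).2.2, h⟩ else false)
      rw [g0, g1, g2]
      exact this
    · rintro ⟨t, ht⟩
      refine ⟨fun i => t i, fun k => ?_⟩
      have := ht _ (List.get_mem T k)
      show One (t (occL nv T hv k 0)) (t (occL nv T hv k 1)) (t (occL nv T hv k 2))
      rw [(hocc k).1.1, (hocc k).1.2, (hocc k).2]
      exact this
  rw [← hiff]
  constructor
  · rintro ⟨_, hc⟩
    obtain ⟨f, γ, hf⟩ := S.cv2 S.dgl _ _ _ Γ hc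
    obtain ⟨X, h1, h2⟩ := S.snd1 S.cvd S.actc S.hdeg _ _ _ _ φ Γ hΓ f γ hf
    obtain ⟨g1, g2, g3, g4, g5⟩ := S.snd2 _ _ _ _ φ Γ hΓ f γ hf X h1 h2
    exact S.snd3 _ _ _ X g1 g2 g3 g4 g5
  · rintro ⟨t, ht⟩
    exact ⟨h, S.cv1 S.dgl S.onto _ _ _ Γ _ _ S.hconn ⟨(⟨0, h.1⟩ : Fin (numV _))⟩
      (S.cmp3 S.xx S.cmp1 S.cmp2 _ _ _ _ φ Γ hΓ t ht)⟩

/-- general inputs -/
theorem general_npc (S0 : AllS) (S : AllC) : NPComplete (CoverGeneral HC) := by
  refine ⟨S.npg S0.fpcb S0.fpcov S0.codeb S0.covb HC, fun L hL => ?_⟩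
  obtain ⟨F, hF, _, _, hS⟩ := cook_levin hL
  refine ⟨fun x => theCode2 (triN (colN (F x)) (colE (F x))) (tri (colN (F x)) (colE (F x))),
    ?_, fun x => ?_⟩
  · rw [isPolyTime_list]
    obtain ⟨hE, hN⟩ := S0.fpcol _ F hF
    obtain ⟨hT, htN⟩ := S0.fptri _ _ _ hN hE
    exact S.fpc S.fpv S.fpr _ _ _ htN hT
  · rw [hS x]
    set φ := F x
    have hb := S0.colb φ
    have htb := S0.trib (colN φ) (colE φ) hb
    have hN : 0 < colN φ := by unfold colN; omega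
    rw [inst_iff S _ _ (by unfold triN; omega) ?_ htb]
    · constructor
      · intro hs
        obtain ⟨ρ, hρ⟩ := S0.tri1 _ _ hb (S0.col1 φ hs)
        refine ⟨fun n => decide (ρ n = 0), fun a ha => ?_⟩
        obtain ⟨h1, h2, h3⟩ := hρ a ha
        have key : ∀ p q r : Fin 3, p ≠ q → p ≠ r → q ≠ r →
            One (decide (p = 0)) (decide (q = 0)) (decide (r = 0)) := by
          intro p q r
          fin_cases p <;> fin_cases q <;> fin_cases r <;> simp [One]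
        exact key _ _ _ h1 h2 h3
      · intro h
        exact S0.col2 φ (S0.tri2 _ _ hb h)
    · obtain ⟨m, hm⟩ : ∃ m, colN φ = m + 1 := ⟨colN φ - 1, by omega⟩
      rw [hm]
      simp [tri, List.range_succ]

/-- The theorem. -/
theorem main (S0 : AllS) (S : AllC) :
    (∃ H : Gr, H.Connected ∧ NPComplete (CoverGeneral H) ∧ CoverSimple H ∈ P) ∧
    ((∀ H : Gr, CoverGeneral H ∈ P ∨ NPComplete (CoverSimple H)) ↔ P = NP) := by
  refine ⟨⟨HC, S.hconn, general_npc S0 S, simple_mem_P S0 S⟩, fun h => ?_, fun h H => ?_⟩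
  · rcases h HC with h | h
    · exact S.pnp _ (general_npc S0 S) h
    · exact S.pnp _ h (simple_mem_P S0 S)
  · left
    rw [h]
    exact S.npg S0.fpcb S0.fpcov S0.codeb S0.covb H

end SDich.SC
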