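import Pool.Agent.Lib.MP_e7d961_lc.Stm

/-!
A graph `HC` such that `HC`-COVER is NP-complete on general inputs and in P on simple inputs
(`MP_e7d961_lc`): definitions.
-/

namespace SDich.SC

open Finset HerCo CookLevin

/-- vectors of three bits -/
abbrev Q3 := Fin 3 → Bool

/-- the zero vector -/
def o3 : Q3 := fun _ => false

/-- sum of vectors -/
def xr (x c : Q3) : Q3 := fun i => xor (x i) (c i)

/-- the vector with the bits `b, u, v` at the places `j, j + 1, j + 2` -/
def mk3 (j : Fin 3) (u v b : Bool) : Q3 := fun i => if i = j then b else if i = j + 1 then u else v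

/-- The vertices of `HC`. -/
inductive HV where
  /-- the vertex of a vector -/
  | s (x : Q3)
  /-- the vertex of a coset of the vector `e_j`; `u, v` are the bits `j + 1, j + 2` -/
  | z (j : Fin 3) (u v : Bool)
  /-- leaf at `s x` -/
  | ls (x : Q3)
  /-- leaf at `z 2 u v` -/
  | lz (u v : Bool)
  deriving DecidableEq, Fintype

/-- The edges of `HC`. -/
inductive HE where
  /-- from `s x` to the vertex of its coset -/
  | az (j : Fin 3) (x : Q3)
  /-- leaf edge at `s x` -/
  | als (x : Q3)
  /-- leaf edge at `z 2 u v` -/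
  | alz (u v : Bool)
  /-- semi-edge (`j = 0`) or loop (`j = 1, 2`) at `z j u v` -/
  | zz (j : Fin 3) (u v : Bool)
  /-- the loop at `s o3` -/
  | lp
  /-- the two semi-edges at `s x`, `x ≠ o3` -/
  | sm (x : {x : Q3 // x ≠ o3}) (b : Bool)
  deriving DecidableEq, Fintype

/-- the vertex of the coset of `x` -/
def zc (j : Fin 3) (x : Q3) : HV := .z j (x (j + 1)) (x (j + 2))

/-- The graph `HC`: the degrees are `6` at `s x`, `3 + j` at `z j u v`, `1` at leaves. -/
def HC : Gr where
  V := HV
  E := HE
  ends
    | .az j x => {.s x, zc j x}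
    | .als x => {.s x, .ls x}
    | .alz u v => {.z 2 u v, .lz u v}
    | .zz j u v => if j = 0 then {.z j u v} else {.z j u v, .z j u v}
    | .lp => {.s o3, .s o3}
    | .sm x _ => {.s x.1}
  card_ends e := by
    cases e with
    | zz j u v => by_cases h : j = 0 <;> simp [h]
    | _ => simp

theorem zc_mk3 (j : Fin 3) (u v b : Bool) : zc j (mk3 j u v b) = .z j u v := by
  revert j u v b; decide

theorem mk3_self (j : Fin 3) (x : Q3) : mk3 j (x (j + 1)) (x (j + 2)) (x j) = x := by
  revert j x; decide

theorem xr_self (x : Q3) : xr x x = o3 := by funext i; simp [xr, o3]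

theorem xr_xr (x c : Q3) : xr (xr x c) c = x := by funext i; simp [xr]

theorem xr_eq_o3 {x c : Q3} : xr x c = o3 ↔ x = c := by
  constructor
  · intro h
    funext i
    have := congrFun h i
    simpa [xr, o3] using this
  · rintro rfl; exact xr_self x

/-! ### darts and coverings -/

/-- Darts (directed edges) of a graph. -/
structure DG (G : Gr) (D : Type) where
  /-- the tail of a dart -/
  tail : D → G.V
  /-- reversal -/
  rev : D → D
  rev_rev : ∀ d, rev (rev d) = d
  /-- the edge of a dart -/
  ed : D → G.E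
  ed_surj : Function.Surjective ed
  ed_eq : ∀ d d', ed d = ed d' ↔ d' = d ∨ d' = rev d
  ends_semi : ∀ d, rev d = d → G.ends (ed d) = {tail d}
  ends_edge : ∀ d, rev d ≠ d → G.ends (ed d) = {tail d, tail (rev d)}

/-- a covering projection in terms of darts (without surjectivity) -/
structure Cv {G : Gr} {D : Type} [Fintype D] [DecidableEq D] (Γ : DG G D) (H : Gr)
    (f : G.V → H.V) (γ : D → H.E) : Prop where
  rev : ∀ d, γ (Γ.rev d) = γ d
  semi : ∀ d, Γ.rev d = d → H.ends (γ d) = {f (Γ.tail d)}
  edge : ∀ d, Γ.rev d ≠ d → H.ends (γ d) = {f (Γ.tail d), f (Γ.tail (Γ.rev d))} ∨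
    (H.ends (γ d) = {f (Γ.tail d)} ∧ f (Γ.tail (Γ.rev d)) = f (Γ.tail d))
  loc : ∀ v e, (univ.filter fun d => Γ.tail d = v ∧ γ d = e).card = (H.ends e).count (f v)

/-! ### signed graphs -/

/-- a step in the double cover of a signed graph -/
def stp {N : Type} (L : N → N → Bool → Prop) (a b : N × Bool) : Prop := L a.1 b.1 (xor a.2 b.2)

/-- there is a closed walk with odd sign from `u` to `u` -/
def OddN {N : Type} (L : N → N → Bool → Prop) (u : N) : Prop :=
  Relation.ReflTransGen (stp L) (u, false) (u, true)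

/-! ### simple graphs -/

/-- the simple graph of a graph -/
def sgr (G : Gr) : SimpleGraph G.V where
  Adj a b := a ≠ b ∧ ∃ e, G.ends e = {a, b}
  symm := ⟨fun a b h => ⟨h.1.symm, h.2.imp fun e he => by rw [he, Multiset.pair_comm]⟩⟩
  loopless := ⟨fun a h => h.1 rfl⟩

section

variable {V : Type} [Fintype V]

open Classical in
/-- degree -/
noncomputable def dg (S : SimpleGraph V) (v : V) : ℕ := (univ.filter fun w => S.Adj v w).card

open Classical in
/-- number of neighbours of degree `d` -/
noncomputable def nb (S : SimpleGraph V) (v : V) (d : ℕ) : ℕ :=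
  (univ.filter fun w => S.Adj v w ∧ dg S w = d).card

/-- the local conditions: the degrees of the vertices `s x`, `z 0`, `z 1`, `z 2` and of the leaves
are `6, 3, 4, 5, 1` -/
def Loc (S : SimpleGraph V) : Prop := ∀ v,
  (dg S v = 6 ∧ nb S v 6 = 2 ∧ nb S v 3 = 1 ∧ nb S v 4 = 1 ∧ nb S v 5 = 1 ∧ nb S v 1 = 1) ∨
  (dg S v = 3 ∧ nb S v 6 = 2 ∧ nb S v 3 = 1) ∨
  (dg S v = 4 ∧ nb S v 6 = 2 ∧ nb S v 4 = 2) ∨
  (dg S v = 5 ∧ nb S v 6 = 2 ∧ nb S v 5 = 2 ∧ nb S v 1 = 1) ∨
  (dg S v = 1 ∧ nb S v 1 = 0)

/-- adjacent vertices of degree 6 -/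
def CA (S : SimpleGraph V) (a b : V) : Prop := S.Adj a b ∧ dg S a = 6 ∧ dg S b = 6

/-- The signed graph on the pairs `(a, b)` with `CA a b`: reversal has sign `false`, pairs
`(a, b)`, `(a, c)` with `b ≠ c` have sign `true`. -/
def lnk (S : SimpleGraph V) (p q : V × V) (π : Bool) : Prop :=
  CA S p.1 p.2 ∧ CA S q.1 q.2 ∧
    ((π = false ∧ q.1 = p.2 ∧ q.2 = p.1) ∨ (π = true ∧ q.1 = p.1 ∧ q.2 ≠ p.2))

/-- the bits `i` of `a` and `b` must agree -/
def Same (S : SimpleGraph V) (i : Fin 3) (a b : V) : Prop :=
  S.Adj a b ∧ dg S a ≠ 1 ∧ dg S b ≠ 1 ∧ dg S a ≠ 3 + (i : ℕ) ∧ dg S b ≠ 3 + (i : ℕ)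

/-- the bits `i` of `a` and `b` must differ -/
def Dif (S : SimpleGraph V) (i : Fin 3) (a b : V) : Prop :=
  a ≠ b ∧ dg S a = 6 ∧ dg S b = 6 ∧ ∃ w, dg S w = 3 + (i : ℕ) ∧ S.Adj a w ∧ S.Adj b w

/-- the values of the vertices are good -/
structure Val (S : SimpleGraph V) (β : V → Q3) : Prop where
  same : ∀ i a b, Same S i a b → β a i = β b i
  dif : ∀ i a b, Dif S i a b → β a i ≠ β b i
  zero : ∀ a b, CA S a b → OddN (lnk S) (a, b) → β a = o3

open Classical in
/-- covering projections of a simple graph to `HC` -/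
structure Cvs (S : SimpleGraph V) (f : V → HV) (γ : V → V → HE) : Prop where
  symm : ∀ a b, S.Adj a b → γ b a = γ a b
  ends : ∀ a b, S.Adj a b → HC.ends (γ a b) = {f a, f b} ∨ (HC.ends (γ a b) = {f a} ∧ f b = f a)
  loc : ∀ v e, (univ.filter fun w => S.Adj v w ∧ γ v w = e).card = (HC.ends e).count (f v)

/-- The signed graph on the pairs `(a, i)` (the bit `i` of `a`) and one more node `none` (the
value `false`). -/
def L2 (S : SimpleGraph V) : Option (V × Fin 3) → Option (V × Fin 3) → Bool → Prop
  | some p, some q, π => p.2 = q.2 ∧ ((π = false ∧ Same S p.2 p.1 q.1) ∨ (π = true ∧ Dif S p.2 p.1 q.1))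
  | some p, none, π => π = false ∧ ∃ b, CA S p.1 b ∧ OddN (lnk S) (p.1, b)
  | none, some q, π => π = false ∧ ∃ b, CA S q.1 b ∧ OddN (lnk S) (q.1, b)
  | none, none, _ => False

open Classical in
/-- a neighbour -/
noncomputable def nb1 (S : SimpleGraph V) (v : V) : V := if h : ∃ w, S.Adj v w then h.choose else v

/-- the vertex map of the covering given by the values `β` -/
noncomputable def fP (S : SimpleGraph V) (β : V → Q3) (v : V) : HV :=
  if dg S v = 6 then .s (β v)
  else if dg S v = 3 then zc 0 (β v)
  else if dg S v = 4 then zc 1 (β v)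
  else if dg S v = 5 then zc 2 (β v)
  else if dg S (nb1 S v) = 6 then .ls (β (nb1 S v))
  else .lz (β (nb1 S v) 0) (β (nb1 S v) 1)

/-- the edge map: `a` is the vertex with the larger degree -/
noncomputable def γ0 (S : SimpleGraph V) (β : V → Q3) (col : V × V → Bool) (a b : V) : HE :=
  if dg S a = 6 then
    (if dg S b = 6 then (if h : β a = o3 then .lp else .sm ⟨β a, h⟩ (col (a, b)))
    else if dg S b = 5 then .az 2 (β a)
    else if dg S b = 4 then .az 1 (β a)
    else if dg S b = 3 then .az 0 (β a)
    else .als (β a))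
  else if dg S a = 5 then
    (if dg S b = 5 then .zz 2 (β a 0) (β a 1) else .alz (β a 0) (β a 1))
  else if dg S a = 4 then .zz 1 (β a 2) (β a 0)
  else .zz 0 (β a 1) (β a 2)

/-- the edge map -/
noncomputable def γP (S : SimpleGraph V) (β : V → Q3) (col : V × V → Bool) (a b : V) : HE :=
  if dg S b ≤ dg S a then γ0 S β col a b else γ0 S β col b a

/-- `col` is a proper colouring of the `CA`-edges at vertices with value `≠ o3` -/
def Col2 (S : SimpleGraph V) (β : V → Q3) (col : V × V → Bool) : Prop :=
  (∀ a b, CA S a b → β a ≠ o3 → col (b, a) = col (a, b)) ∧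
  ∀ a b c, CA S a b → CA S a c → b ≠ c → β a ≠ o3 → col (a, c) ≠ col (a, b)

end

/-! ### the search in signed graphs with nodes `0, ..., N - 1` -/

/-- the start: the entry `2 b + p` says that the node `b` can be reached with sign `p` -/
def initL (N u : ℕ) : List Bool := (List.range N).flatMap fun b => [decide (b = u), false]

/-- a step -/
def stepL (N : ℕ) (L : ℕ → ℕ → Bool → Bool) (st : List Bool) : List Bool :=
  (List.range N).flatMap fun b =>
    [st.getD (2 * b) false || (List.range N).any fun c =>
        (L c b false && st.getD (2 * c) false) || (L c b true && st.getD (2 * c + 1) false),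
     st.getD (2 * b + 1) false || (List.range N).any fun c =>
        (L c b false && st.getD (2 * c + 1) false) || (L c b true && st.getD (2 * c) false)]

/-- the search: is there a closed walk with odd sign at `u`? -/
def srch (N : ℕ) (L : ℕ → ℕ → Bool → Bool) (u : ℕ) : Bool :=
  ((stepL N L)^[2 * N] (initL N u)).getD (2 * u + 1) false

/-! ### the algorithm for simple inputs -/

/-- adjacency -/
def adjB (s : List Bool) (a b : ℕ) : Bool :=
  !decide (a = b) && (List.range (numE s)).any fun j =>
    decide (entry s j a = 1) && decide (entry s j b = 1)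

/-- degree -/
def dgB (s : List Bool) (a : ℕ) : ℕ := sumB (numV s) (adjB s a) (fun _ => 1)

/-- number of neighbours of degree `d` -/
def nbB (s : List Bool) (a d : ℕ) : ℕ :=
  sumB (numV s) (fun b => adjB s a b && decide (dgB s b = d)) (fun _ => 1)

/-- local conditions -/
def locB (s : List Bool) : Bool := (List.range (numV s)).all fun v =>
  (decide (dgB s v = 6) && decide (nbB s v 6 = 2) && decide (nbB s v 3 = 1) &&
    decide (nbB s v 4 = 1) && decide (nbB s v 5 = 1) && decide (nbB s v 1 = 1)) ||
  (decide (dgB s v = 3) && decide (nbB s v 6 = 2) && decide (nbB s v 3 = 1)) ||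
  (decide (dgB s v = 4) && decide (nbB s v 6 = 2) && decide (nbB s v 4 = 2)) ||
  (decide (dgB s v = 5) && decide (nbB s v 6 = 2) && decide (nbB s v 5 = 2) &&
    decide (nbB s v 1 = 1)) ||
  (decide (dgB s v = 1) && decide (nbB s v 1 = 0))

/-- adjacent vertices of degree 6 -/
def caB (s : List Bool) (a b : ℕ) : Bool :=
  adjB s a b && decide (dgB s a = 6) && decide (dgB s b = 6)

/-- `lnk`; the pair `(a, b)` has the number `a n + b` -/
def lnkB (s : List Bool) (p q : ℕ) (π : Bool) : Bool :=
  caB s (p / numV s) (p % numV s) && caB s (q / numV s) (q % numV s) &&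
    ((!π && decide (q / numV s = p % numV s) && decide (q % numV s = p / numV s)) ||
     (π && decide (q / numV s = p / numV s) && !decide (q % numV s = p % numV s)))

/-- the value of `a` must be `o3` -/
def zeroB (s : List Bool) (a : ℕ) : Bool := (List.range (numV s)).any fun b =>
  caB s a b && srch (numV s * numV s) (lnkB s) (a * numV s + b)

/-- `Same` -/
def sameB (s : List Bool) (i a b : ℕ) : Bool :=
  adjB s a b && !decide (dgB s a = 1) && !decide (dgB s b = 1) && !decide (dgB s a = 3 + i) &&
    !decide (dgB s b = 3 + i)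

/-- `Dif` -/
def difB (s : List Bool) (i a b : ℕ) : Bool :=
  !decide (a = b) && decide (dgB s a = 6) && decide (dgB s b = 6) &&
    (List.range (numV s)).any fun w => decide (dgB s w = 3 + i) && adjB s a w && adjB s b w

/-- `L2`; the node `(a, i)` has the number `3 a + i`, the node `none` has the number `3 n` -/
def l2B (s : List Bool) (p q : ℕ) (π : Bool) : Bool :=
  (decide (p < 3 * numV s) && decide (q < 3 * numV s) && decide (p % 3 = q % 3) &&
    ((!π && sameB s (p % 3) (p / 3) (q / 3)) || (π && difB s (p % 3) (p / 3) (q / 3)))) ||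
  (decide (p < 3 * numV s) && decide (q = 3 * numV s) && !π && zeroB s (p / 3)) ||
  (decide (p = 3 * numV s) && decide (q < 3 * numV s) && !π && zeroB s (q / 3))

/-- the algorithm -/
def algB (s : List Bool) : Bool :=
  codeB s && ordB s && injB s && locB s &&
    (List.range (3 * numV s + 1)).all fun u => !srch (3 * numV s + 1) (l2B s) u

/-! ### the graph of an instance -/

/-- The cubes.  For an instance with `M` clauses and `nv` variables; `d` is the number of the copy. -/
inductive Cb (nv M : ℕ) where
  /-- variable `i` at the clause `k` -/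
  | va (i : Fin nv) (k : Fin M) (d : Bool)
  /-- clause -/
  | cl (k : Fin M) (d : Bool)
  /-- link between the clause `k` and the variable at its place `j` -/
  | lk (k : Fin M) (j : Fin 3) (d : Bool)
  deriving DecidableEq, Fintype

/-- the vertices of the graph -/
abbrev W (nv M : ℕ) := Cb nv M × HV

/-- active ports -/
def act : HV → Fin 6 → Bool
  | .s _, _ => true
  | .z j _ _, p => decide (p = 0) || decide (p = 1) || (decide (p = 2) && decide (j = 2)) ||
      decide (p = 3) || (decide (p = 4) && !decide (j = 0))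
  | .ls _, p => decide (p = 0)
  | .lz _ _, p => decide (p = 0)

/-- all bits are equal -/
def isC (x : Q3) : Bool := decide (x 0 = x 1) && decide (x 1 = x 2)

/-- exactly one bit is `true` -/
def isE (x : Q3) : Bool :=
  (x 0 && !x 1 && !x 2) || (!x 0 && x 1 && !x 2) || (!x 0 && !x 1 && x 2)

section

variable {nv M : ℕ}

/-- The partner of a cube for the links of type `j`. -/
def pt (occ : Fin M → Fin 3 → Fin nv) : Cb nv M → Fin 3 → Cb nv M
  | .va i k d, j => if occ k (j + 1) = i then .lk k (j + 1) d else .va i k d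
  | .cl k d, j => .lk k (j + 2) d
  | .lk k j' d, j => if j = j' + 1 then .cl k d
      else if j = j' + 2 then .va (occ k j') k d else .lk k j' d

/-- the reversal of the ports `4, 5` of `s x` -/
def crv (q : Cb nv M) (x : Q3) (p : Fin 6) : Cb nv M × Fin 6 :=
  match q with
  | .va i k d =>
      if isC x = true then
        (if p = 4 then (if d then (.va i (finRotate M k) false, 5) else (.va i k true, 5))
        else (if d then (.va i k false, 4) else (.va i ((finRotate M).symm k) true, 4)))
      else (q, p)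
  | .cl k d => if isE x = true then (.cl k (!d), p) else (q, p)
  | .lk k j d => (.lk k j (!d), p)

/-- Reversal of darts.  Ports of `s x`: `0, 1, 2` to `z j`, `3` to the leaf, `4, 5` to other
vertices `s x` (two semi-edges, two parallel edges, or a cycle).  Ports of `z j u v`: `0, 1` to
`s (mk3 j u v false)`, `s (mk3 j u v true)`, `2` to the leaf, `3, 4` to the vertex `z j u v` of the
partner if `u = v = false` and there is a partner; otherwise they form a semi-edge (`j = 0`) or a
loop. -/
def rv (occ : Fin M → Fin 3 → Fin nv) : W nv M × Fin 6 → W nv M × Fin 6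
  | ((q, .s x), p) =>
      if p = 0 then ((q, zc 0 x), if x 0 then 1 else 0)
      else if p = 1 then ((q, zc 1 x), if x 1 then 1 else 0)
      else if p = 2 then ((q, zc 2 x), if x 2 then 1 else 0)
      else if p = 3 then ((q, .ls x), 0)
      else (((crv q x p).1, .s x), (crv q x p).2)
  | ((q, .z j u v), p) =>
      if p = 0 then ((q, .s (mk3 j u v false)), if j = 0 then 0 else if j = 1 then 1 else 2)
      else if p = 1 then ((q, .s (mk3 j u v true)), if j = 0 then 0 else if j = 1 then 1 else 2)
      else if p = 2 then (if j = 2 then ((q, .lz u v), 0) else ((q, .z j u v), p))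
      else if p = 5 then ((q, .z j u v), p)
      else if p = 4 ∧ j = 0 then ((q, .z j u v), p)
      else if u = false ∧ v = false ∧ pt occ q j ≠ q then ((pt occ q j, .z j u v), p)
      else if j = 0 then ((q, .z j u v), p)
      else ((q, .z j u v), if p = 3 then 4 else 3)
  | ((q, .ls x), p) => if p = 0 then ((q, .s x), 3) else ((q, .ls x), p)
  | ((q, .lz u v), p) => if p = 0 then ((q, .z 2 u v), 2) else ((q, .lz u v), p)

/-- the darts -/
abbrev Dt (nv M : ℕ) := {d : W nv M × Fin 6 // act d.1.2 d.2 = true}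

/-- `G` is the graph of the instance. -/
structure Rz (occ : Fin M → Fin 3 → Fin nv) (G : Gr) (φ : G.V ≃ W nv M)
    (Γ : DG G (Dt nv M)) : Prop where
  tail : ∀ d, φ (Γ.tail d) = d.1.1
  rev : ∀ d, (Γ.rev d).1 = rv occ d.1

/-- the action of a vector on the vertices of `HC` -/
def sh (c : Q3) : HV → HV
  | .s x => .s (xr x c)
  | .z j u v => .z j (xor u (c (j + 1))) (xor v (c (j + 2)))
  | .ls x => .ls (xr x c)
  | .lz u v => .lz (xor u (c 0)) (xor v (c 1))

/-- the label of the ports `4, 5` -/
def lab (q : Cb nv M) (p : Fin 6) : Bool :=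
  match q with
  | .va _ _ d => xor d (decide (p = 5))
  | _ => decide (p = 5)

/-- the edge map of the covering given by the values `X` of the cubes -/
def γG (X : Cb nv M → Q3) : W nv M × Fin 6 → HE
  | ((q, .s x), p) =>
      if p = 0 then .az 0 (xr x (X q)) else if p = 1 then .az 1 (xr x (X q))
      else if p = 2 then .az 2 (xr x (X q)) else if p = 3 then .als (xr x (X q))
      else if h : xr x (X q) = o3 then .lp else .sm ⟨xr x (X q), h⟩ (lab q p)
  | ((q, .z j u v), p) =>
      if p = 0 then .az j (mk3 j (xor u (X q (j + 1))) (xor v (X q (j + 2))) (X q j))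
      else if p = 1 then .az j (mk3 j (xor u (X q (j + 1))) (xor v (X q (j + 2))) (!X q j))
      else if p = 2 then .alz (xor u (X q (j + 1))) (xor v (X q (j + 2)))
      else .zz j (xor u (X q (j + 1))) (xor v (X q (j + 2)))
  | ((q, .ls x), _) => .als (xr x (X q))
  | ((q, .lz u v), _) => .alz (xor u (X q 0)) (xor v (X q 1))

/-- the values of the cubes for a solution `t` -/
def XX (occ : Fin M → Fin 3 → Fin nv) (t : Fin nv → Bool) : Cb nv M → Q3
  | .va i _ _ => fun _ => t i
  | .cl k _ => fun j => t (occ k j)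
  | .lk k j _ => fun i => if i = j + 1 then t (occ k j) else t (occ k i)

end

/-! ### names and codes -/

/-- names of cubes -/
abbrev Tc := (ℕ × ℕ) × (ℕ × Bool)

/-- names of vertices of `HC` -/
abbrev Th := (ℕ × ℕ) × (Bool × Bool × Bool)

/-- names of vertices -/
abbrev Tn := Tc × Th

/-- name of a cube -/
def cnm {nv M : ℕ} : Cb nv M → Tc
  | .va i k d => ((0, i), (k, d))
  | .cl k d => ((1, 0), (k, d))
  | .lk k j d => ((2, j), (k, d))

/-- name of a vertex of `HC` -/
def hnm : HV → Th
  | .s x => ((0, 0), (x 0, x 1, x 2))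
  | .z j u v => ((1, j), (u, v, false))
  | .ls x => ((2, 0), (x 0, x 1, x 2))
  | .lz u v => ((3, 0), (u, v, false))

/-- name of a vertex -/
def nm {nv M : ℕ} (w : W nv M) : Tn := (cnm w.1, hnm w.2)

/-- the names of the cubes -/
def cubesT (nv M : ℕ) : List Tc :=
  (List.range M).flatMap fun k => [false, true].flatMap fun d =>
    ((List.range nv).map fun i => ((0, i), (k, d))) ++ [((1, 0), (k, d))] ++
      (List.range 3).map fun j => ((2, j), (k, d))

/-- the names of the vertices of `HC` -/
def hvT : List Th :=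
  ([false, true].flatMap fun a => [false, true].flatMap fun b => [false, true].flatMap fun c =>
    [((0, 0), (a, b, c)), ((2, 0), (a, b, c))]) ++
  ([false, true].flatMap fun u => [false, true].flatMap fun v =>
    [((1, 0), (u, v, false)), ((1, 1), (u, v, false)), ((1, 2), (u, v, false)),
      ((3, 0), (u, v, false))])

/-- the names of all vertices -/
def vertsT (nv M : ℕ) : List Tn := (cubesT nv M).flatMap fun q => hvT.map fun h => (q, h)

/-- the bit `i` -/
def bitT (x : Bool × Bool × Bool) (i : ℕ) : Bool :=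
  if i = 0 then x.1 else if i = 1 then x.2.1 else x.2.2

/-- `mk3` -/
def mkT (j : ℕ) (u v b : Bool) : Bool × Bool × Bool :=
  (if j = 0 then b else if j = 2 then u else v,
   if j = 1 then b else if j = 0 then u else v,
   if j = 2 then b else if j = 1 then u else v)

/-- `zc` -/
def zcT (j : ℕ) (x : Bool × Bool × Bool) : Th :=
  ((1, j), (bitT x ((j + 1) % 3), bitT x ((j + 2) % 3), false))

/-- the variable at the place `j` of the clause `k` -/
def occT (T : List (ℕ × ℕ × ℕ)) (k j : ℕ) : ℕ :=
  if j = 0 then (T.getD k (0, 0, 0)).1 else if j = 1 then (T.getD k (0, 0, 0)).2.1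
  else (T.getD k (0, 0, 0)).2.2

/-- `act` -/
def actT (h : Th) (p : ℕ) : Bool :=
  if h.1.1 = 0 then decide (p < 6)
  else if h.1.1 = 1 then decide (p = 0) || decide (p = 1) || (decide (p = 2) && decide (h.1.2 = 2)) ||
      decide (p = 3) || (decide (p = 4) && !decide (h.1.2 = 0))
  else decide (p = 0)

/-- `pt` -/
def ptT (T : List (ℕ × ℕ × ℕ)) (q : Tc) (j : ℕ) : Tc :=
  if q.1.1 = 0 then
    (if occT T q.2.1 ((j + 1) % 3) = q.1.2 then ((2, (j + 1) % 3), q.2) else q)
  else if q.1.1 = 1 then ((2, (j + 2) % 3), q.2)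
  else if j = (q.1.2 + 1) % 3 then ((1, 0), q.2)
  else if j = (q.1.2 + 2) % 3 then ((0, occT T q.2.1 q.1.2), q.2)
  else q

/-- `crv`; `M` is the number of clauses -/
def crvT (M : ℕ) (q : Tc) (x : Bool × Bool × Bool) (p : ℕ) : Tc × ℕ :=
  if q.1.1 = 0 then
    if x.1 = x.2.1 ∧ x.2.1 = x.2.2 then
      (if p = 4 then
        (if q.2.2 = true then ((q.1, (if q.2.1 + 1 < M then q.2.1 + 1 else 0, false)), 5)
          else ((q.1, (q.2.1, true)), 5))
      else
        (if q.2.2 = true then ((q.1, (q.2.1, false)), 4)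
          else ((q.1, (if 0 < q.2.1 then q.2.1 - 1 else M - 1, true)), 4)))
    else (q, p)
  else if q.1.1 = 1 then
    (if (x.1 && !x.2.1 && !x.2.2) || (!x.1 && x.2.1 && !x.2.2) || (!x.1 && !x.2.1 && x.2.2) then
      ((q.1, (q.2.1, !q.2.2)), p) else (q, p))
  else ((q.1, (q.2.1, !q.2.2)), p)

/-- `rv` -/
def rvT (T : List (ℕ × ℕ × ℕ)) (w : Tn) (p : ℕ) : Tn × ℕ :=
  if w.2.1.1 = 0 then
    if p < 3 then ((w.1, zcT p w.2.2), if bitT w.2.2 p then 1 else 0)
    else if p = 3 then ((w.1, ((2, 0), w.2.2)), 0)
    else (((crvT T.length w.1 w.2.2 p).1, w.2), (crvT T.length w.1 w.2.2 p).2)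
  else if w.2.1.1 = 1 then
    if p = 0 then ((w.1, ((0, 0), mkT w.2.1.2 w.2.2.1 w.2.2.2.1 false)), w.2.1.2)
    else if p = 1 then ((w.1, ((0, 0), mkT w.2.1.2 w.2.2.1 w.2.2.2.1 true)), w.2.1.2)
    else if p = 2 then (if w.2.1.2 = 2 then ((w.1, ((3, 0), w.2.2)), 0) else (w, p))
    else if p = 5 then (w, p)
    else if p = 4 ∧ w.2.1.2 = 0 then (w, p)
    else if w.2.2.1 = false ∧ w.2.2.2.1 = false ∧ ¬ ptT T w.1 w.2.1.2 = w.1 then
      ((ptT T w.1 w.2.1.2, w.2), p)
    else if w.2.1.2 = 0 then (w, p)
    else (w, if p = 3 then 4 else 3)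
  else if w.2.1.1 = 2 then (if p = 0 then ((w.1, ((0, 0), w.2.2)), 3) else (w, p))
  else (if p = 0 then ((w.1, ((1, 2), w.2.2)), 2) else (w, p))

/-- the row of the incidence matrix for the edge of the dart `(a, p)` with the reversal `(b, p')` -/
def rowD (N a p b p' : ℕ) : List Bool :=
  (List.range N).flatMap fun c =>
    [decide (c = a), decide (c = b) && !(decide (a = b) && decide (p = p'))]

/-- The code of the graph with vertices `0, ..., N - 1` and darts `(a, p)`, `p < 6`; `R a p b p'`
says that `(a, p)` is a dart with the reversal `(b, p')`. -/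
def codeD (N : ℕ) (R : ℕ → ℕ → ℕ → ℕ → Bool) : List Bool :=
  List.replicate N true ++ false ::
    ((List.range N).flatMap fun a => (List.range 6).flatMap fun p =>
      (List.range N).flatMap fun b => (List.range 6).flatMap fun p' =>
        if R a p b p' && (decide (a < b) || (decide (a = b) && decide (p ≤ p')))
        then rowD N a p b p' else [])

/-- default name -/
def dn : Tn := (((0, 0), (0, false)), ((0, 0), (false, false, false)))

/-- the code of the graph of an instance -/
def theCode2 (nv : ℕ) (T : List (ℕ × ℕ × ℕ)) : List Bool :=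
  codeD (vertsT nv T.length).length fun a p b p' =>
    actT ((vertsT nv T.length).getD a dn).2 p &&
      decide (rvT T ((vertsT nv T.length).getD a dn) p = ((vertsT nv T.length).getD b dn, p'))

/-- the instance of a list of triples of numbers `< nv` -/
def occL (nv : ℕ) (T : List (ℕ × ℕ × ℕ)) (hv : 0 < nv) (k : Fin T.length) (j : Fin 3) : Fin nv :=
  ⟨occT T k j % nv, Nat.mod_lt _ hv⟩

end SDich.SC
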