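import Pool.Agent.Lib.MP_e7d961_lc.Fin
import Pool.Agent.Lib.MP_e7d961_lc.SC.Asm
import Pool.Agent.Lib.MP_e7d961_lc.SC.P.dgl
import Pool.Agent.Lib.MP_e7d961_lc.SC.P.onto
import Pool.Agent.Lib.MP_e7d961_lc.SC.P.cv1
import Pool.Agent.Lib.MP_e7d961_lc.SC.P.cv2
import Pool.Agent.Lib.MP_e7d961_lc.SC.P.cvd
import Pool.Agent.Lib.MP_e7d961_lc.SC.P.hdeg
import Pool.Agent.Lib.MP_e7d961_lc.SC.P.hconn
import Pool.Agent.Lib.MP_e7d961_lc.SC.P.npg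
import Pool.Agent.Lib.MP_e7d961_lc.SC.P.pnp
import Pool.Agent.Lib.MP_e7d961_lc.SC.P.sg1
import Pool.Agent.Lib.MP_e7d961_lc.SC.P.sg2
import Pool.Agent.Lib.MP_e7d961_lc.SC.P.sg3
import Pool.Agent.Lib.MP_e7d961_lc.SC.P.srch
import Pool.Agent.Lib.MP_e7d961_lc.SC.P.simp0
import Pool.Agent.Lib.MP_e7d961_lc.SC.P.p1d
import Pool.Agent.Lib.MP_e7d961_lc.SC.P.p1a
import Pool.Agent.Lib.MP_e7d961_lc.SC.P.p1b
import Pool.Agent.Lib.MP_e7d961_lc.SC.P.p1c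
import Pool.Agent.Lib.MP_e7d961_lc.SC.P.p2a
import Pool.Agent.Lib.MP_e7d961_lc.SC.P.p2b
import Pool.Agent.Lib.MP_e7d961_lc.SC.P.p2c
import Pool.Agent.Lib.MP_e7d961_lc.SC.P.p2d
import Pool.Agent.Lib.MP_e7d961_lc.SC.P.p2e
import Pool.Agent.Lib.MP_e7d961_lc.SC.P.p3
import Pool.Agent.Lib.MP_e7d961_lc.SC.P.alg1
import Pool.Agent.Lib.MP_e7d961_lc.SC.P.alg2
import Pool.Agent.Lib.MP_e7d961_lc.SC.P.alg3
import Pool.Agent.Lib.MP_e7d961_lc.SC.P.fps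
import Pool.Agent.Lib.MP_e7d961_lc.SC.P.fpa1
import Pool.Agent.Lib.MP_e7d961_lc.SC.P.fpa2
import Pool.Agent.Lib.MP_e7d961_lc.SC.P.fpa3
import Pool.Agent.Lib.MP_e7d961_lc.SC.P.fpa4
import Pool.Agent.Lib.MP_e7d961_lc.SC.P.rvi
import Pool.Agent.Lib.MP_e7d961_lc.SC.P.actc
import Pool.Agent.Lib.MP_e7d961_lc.SC.P.snd1
import Pool.Agent.Lib.MP_e7d961_lc.SC.P.snd2
import Pool.Agent.Lib.MP_e7d961_lc.SC.P.snd3
import Pool.Agent.Lib.MP_e7d961_lc.SC.P.xx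
import Pool.Agent.Lib.MP_e7d961_lc.SC.P.cmp1
import Pool.Agent.Lib.MP_e7d961_lc.SC.P.cmp2
import Pool.Agent.Lib.MP_e7d961_lc.SC.P.cmp3
import Pool.Agent.Lib.MP_e7d961_lc.SC.P.cd
import Pool.Agent.Lib.MP_e7d961_lc.SC.P.vts
import Pool.Agent.Lib.MP_e7d961_lc.SC.P.rvt
import Pool.Agent.Lib.MP_e7d961_lc.SC.P.rz
import Pool.Agent.Lib.MP_e7d961_lc.SC.P.fpv
import Pool.Agent.Lib.MP_e7d961_lc.SC.P.fpr
import Pool.Agent.Lib.MP_e7d961_lc.SC.P.fpc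

/-!
All pieces together (`MP_e7d961_lc`, the graph `HC`).
-/

namespace SDich.SC

/-- all the statements hold -/
theorem allC : AllC where
  dgl := p_dgl
  onto := p_onto
  cv1 := p_cv1
  cv2 := p_cv2
  cvd := p_cvd
  hdeg := p_hdeg
  hconn := p_hconn
  npg := p_npg
  pnp := p_pnp
  sg1 := p_sg1
  sg2 := p_sg2
  sg3 := p_sg3
  srch := p_srch
  simp0 := p_simp0
  p1d := p_p1d
  p1a := p_p1a
  p1b := p_p1b
  p1c := p_p1c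
  p2a := p_p2a
  p2b := p_p2b
  p2c := p_p2c
  p2d := p_p2d
  p2e := p_p2e
  p3 := p_p3
  alg1 := p_alg1
  alg2 := p_alg2
  alg3 := p_alg3
  fps := p_fps
  fpa1 := p_fpa1
  fpa2 := p_fpa2
  fpa3 := p_fpa3
  fpa4 := p_fpa4
  rvi := p_rvi
  actc := p_actc
  snd1 := p_snd1
  snd2 := p_snd2
  snd3 := p_snd3
  xx := p_xx
  cmp1 := p_cmp1
  cmp2 := p_cmp2
  cmp3 := p_cmp3
  cd := p_cd
  vts := p_vts
  rvt := p_rvt
  rz := p_rz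
  fpv := p_fpv
  fpr := p_fpr
  fpc := p_fpc

end SDich.SC
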