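import Pool.Agent.Lib.MP_e7d961_lc.SC.Defs

/-!
Statements of the pieces (`MP_e7d961_lc`, the graph `HC`).
-/

namespace SDich.SC

open Finset HerCo CookLevin N68a2faeb

/-! ### A. general lemmas on coverings -/

/-- [dgl] Counting darts.  The number of darts `d` with `ed d = e`, `tail d = v` is the multiplicity
of `v` in `ends e` (`ed_surj`, `ed_eq`, `ends_semi`, `ends_edge`); sum over `e`. -/
def S_dgl : Prop := ∀ (G : Gr) (D : Type) [Fintype D] [DecidableEq D] (Γ : DG G D),
  (∀ v, G.deg v = (univ.filter fun d => Γ.tail d = v).card) ∧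
  ∀ (E' : Type) [DecidableEq E'] (g : G.E → E') (v : G.V) (e : E'),
    ∑ e' ∈ univ.filter (fun e' => g e' = e), (G.ends e').count v =
      (univ.filter fun d => Γ.tail d = v ∧ g (Γ.ed d) = e).card

/-- [onto] A map that satisfies the local conditions is onto if `H` is connected: the image of `f`
is closed under neighbours (if `e` is an edge of `H` at `f v`, then by `loc` some edge `e'` at `v`
is mapped to `e`, and by `ends` all ends of `e` are in the image). -/
def S_onto : Prop := ∀ (G H : Gr) (f : G.V → H.V) (g : G.E → H.E), H.Connected → Nonempty G.V →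
  (∀ e, (G.ends e).map f = H.ends (g e) ∨
    ((H.ends (g e)).card = 1 ∧ (G.ends e).map f = H.ends (g e) + H.ends (g e))) →
  (∀ v e, ∑ e' ∈ univ.filter (fun e' => g e' = e), (G.ends e').count v =
    (H.ends e).count (f v)) →
  Function.Surjective f ∧ Function.Surjective g

/-- [cv1] From darts to covering projections (`g (ed d) = γ d`, well defined by `ed_eq`). -/
def S_cv1 : Prop := S_dgl → S_onto → ∀ (G H : Gr) (D : Type) [Fintype D] [DecidableEq D]
  (Γ : DG G D) (f : G.V → H.V) (γ : D → H.E), H.Connected → Nonempty G.V → Cv Γ H f γ →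
  G.Covers H

/-- [cv2] From covering projections to darts (`γ d = g (ed d)`). -/
def S_cv2 : Prop := S_dgl → ∀ (G H : Gr) (D : Type) [Fintype D] [DecidableEq D] (Γ : DG G D),
  G.Covers H → ∃ f γ, Cv Γ H f γ

/-- [cvd] Coverings preserve degrees. -/
def S_cvd : Prop := ∀ (G H : Gr) (D : Type) [Fintype D] [DecidableEq D] (Γ : DG G D)
  (f : G.V → H.V) (γ : D → H.E), Cv Γ H f γ →
  ∀ v, (univ.filter fun d => Γ.tail d = v).card = H.deg (f v)

/-- [hdeg] -/
def S_hdeg : Prop := (∀ x, HC.deg (.s x) = 6) ∧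
  (∀ (j : Fin 3) u v, HC.deg (.z j u v) = 3 + (j : ℕ)) ∧
  (∀ x, HC.deg (.ls x) = 1) ∧ ∀ u v, HC.deg (.lz u v) = 1

/-- [hconn] -/
def S_hconn : Prop := HC.Connected

/-- [npg] as `S_np`, without `ordB` and `injB` -/
def S_npg : Prop := S_fpcb → S_fpcov → S_codeb → S_covb → ∀ H : Gr, CoverGeneral H ∈ NP

/-- [pnp] `P = NP` if some NP-complete problem is in P. -/
def S_pnp : Prop := ∀ D : DecisionProblem, NPComplete D → D ∈ P → P = NP

/-! ### B. signed graphs -/

/-- [sg1] Choose a representative `r` in every component (`u ~ v` if `(u, false)` reaches `(v, p)`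
for some `p`), and let `b v` be `true` iff `(r, false)` reaches `(v, true)`. -/
def S_sg1 : Prop := ∀ (N : Type) (L : N → N → Bool → Prop), (∀ u v p, L u v p → L v u p) →
  ∃ b : N → Bool, ∀ u v p, L u v p → ¬ OddN L u → b v = xor (b u) p

/-- [sg2] Induction on the walk: `b v = xor (b u) p` whenever `(u, false)` reaches `(v, p)`. -/
def S_sg2 : Prop := ∀ (N : Type) (L : N → N → Bool → Prop) (P : N → Prop) (b : N → Bool),
  (∀ u v p, L u v p → P u → P v ∧ b v = xor (b u) p) → ∀ u, P u → ¬ OddN L u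

/-- [sg3] Transport. -/
def S_sg3 : Prop := ∀ (N : Type) (L : N → N → Bool → Prop) (M : ℕ) (ε : N → ℕ)
  (L' : ℕ → ℕ → Bool → Bool), Function.Injective ε → (∀ u, ε u < M) → (∀ m < M, ∃ u, ε u = m) →
  (∀ u v p, L' (ε u) (ε v) p = true ↔ L u v p) →
  ∀ u, OddN L u ↔ OddN (fun a b p => a < M ∧ b < M ∧ L' a b p = true) (ε u)

/-- [srch] The search is correct: after `t` steps the entry `2 b + p` says that `(b, p)` can be
reached in at most `t` steps; there are `2 N` states. -/
def S_srch : Prop := ∀ (N : ℕ) (L : ℕ → ℕ → Bool → Bool) (u : ℕ), u < N →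
  (srch N L u = true ↔ OddN (fun a b p => a < N ∧ b < N ∧ L a b p = true) u)

/-! ### C. simple graphs that cover `HC` -/

/-- [simp0] For a simple graph `G`: the pairs of adjacent vertices are darts of `G`
(`ends e = {a, b}` for the pair `(a, b)`). -/
def S_simp0 : Prop := S_dgl → S_onto → S_cv1 → S_cv2 → S_hconn → ∀ G : Gr, G.Simple →
  (G.Covers HC ↔ Nonempty G.V ∧ ∃ f γ, Cvs (sgr G) f γ)

/-- [p1d] Degrees: `dg S v = HC.deg (f v)` (sum `loc` over all `e`). -/
def S_p1d : Prop := ∀ (V : Type) [Fintype V] (S : SimpleGraph V) (f : V → HV) (γ : V → V → HE),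
  Cvs S f γ → ∀ v, dg S v = HC.deg (f v)

/-- [p1a] `Loc`: at a vertex `v` the neighbours of degree `6` are the ends of the edges `γ v w` of
the kinds `lp`, `sm` (at `s x`) or `az` (at `z j`), and so on; count with `loc`. -/
def S_p1a : Prop := S_p1d → S_hdeg → ∀ (V : Type) [Fintype V] (S : SimpleGraph V) (f : V → HV)
  (γ : V → V → HE), Cvs S f γ → Loc S

/-- the bits of a vertex of `HC`; the bit `j` of `z j u v` is not used -/
def bitsH : HV → Q3
  | .s x => x
  | .z j u v => mk3 j u v false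
  | .ls x => x
  | .lz _ _ => o3

/-- [p1b] `β v = bitsH (f v)` satisfies `same` and `dif`.  (`dif`: the vertex `w` is a `z i u v`,
the edges `γ w a`, `γ w b` are of the kind `az i x`, and they are different because the count of
`az i x` at `w` is at most one.) -/
def S_p1b : Prop := S_p1d → S_hdeg → ∀ (V : Type) [Fintype V] (S : SimpleGraph V) (f : V → HV)
  (γ : V → V → HE), Cvs S f γ → (∀ i a b, Same S i a b → bitsH (f a) i = bitsH (f b) i) ∧
    ∀ i a b, Dif S i a b → bitsH (f a) i ≠ bitsH (f b) i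

/-- [p1c] `zero`: if `f a = s x` with `x ≠ o3`, use `sg2` with the property `CA p.1 p.2` and
`f p.1 = s x` of pairs `p` and the colouring `b p =` the bit of the edge `γ p.1 p.2 = sm x b`. -/
def S_p1c : Prop := S_sg2 → S_p1d → S_hdeg → ∀ (V : Type) [Fintype V] (S : SimpleGraph V)
  (f : V → HV) (γ : V → V → HE), Cvs S f γ →
  ∀ a b, CA S a b → OddN (lnk S) (a, b) → bitsH (f a) = o3

/-- [p2a] The ends of the edges: `fP`, `γP` satisfy `symm` and `ends`. -/
def S_p2a : Prop := ∀ (V : Type) [Fintype V] (S : SimpleGraph V) (β : V → Q3)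
  (col : V × V → Bool), Loc S → Val S β → Col2 S β col →
  (∀ a b, S.Adj a b → γP S β col b a = γP S β col a b) ∧
  ∀ a b, S.Adj a b → HC.ends (γP S β col a b) = {fP S β a, fP S β b} ∨
    (HC.ends (γP S β col a b) = {fP S β a} ∧ fP S β b = fP S β a)

/-- [p2b] `loc` at vertices of degree 6. -/
def S_p2b : Prop := ∀ (V : Type) [Fintype V] [DecidableEq V] (S : SimpleGraph V)
  [DecidableRel S.Adj] (β : V → Q3) (col : V × V → Bool), Loc S → Val S β → Col2 S β col →
  ∀ v e, dg S v = 6 → (univ.filter fun w => S.Adj v w ∧ γP S β col v w = e).card =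
    (HC.ends e).count (fP S β v)

/-- [p2c] `loc` at vertices of degree 3, 4, 5: the two neighbours `a, b` of degree 6 agree with `v`
in the bits `i ≠ j` (`same`) and differ in the bit `j` (`dif`). -/
def S_p2c : Prop := ∀ (V : Type) [Fintype V] [DecidableEq V] (S : SimpleGraph V)
  [DecidableRel S.Adj] (β : V → Q3) (col : V × V → Bool), Loc S → Val S β → Col2 S β col →
  ∀ v e, (dg S v = 3 ∨ dg S v = 4 ∨ dg S v = 5) →
    (univ.filter fun w => S.Adj v w ∧ γP S β col v w = e).card = (HC.ends e).count (fP S β v)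

/-- [p2d] `loc` at vertices of degree 1: the neighbour `w` has degree 5 or 6 (`nb w 1 = 0` for the
other degrees, since the numbers `nb w d` add up to at most `dg w`). -/
def S_p2d : Prop := ∀ (V : Type) [Fintype V] [DecidableEq V] (S : SimpleGraph V)
  [DecidableRel S.Adj] (β : V → Q3) (col : V × V → Bool), Loc S → Val S β → Col2 S β col →
  ∀ v e, dg S v = 1 → (univ.filter fun w => S.Adj v w ∧ γP S β col v w = e).card =
    (HC.ends e).count (fP S β v)

/-- [p2e] The colouring: from `sg1` for `lnk S`; a pair `(a, b)` with `β a ≠ o3` is not odd by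
`zero`. -/
def S_p2e : Prop := S_sg1 → ∀ (V : Type) [Fintype V] (S : SimpleGraph V) (β : V → Q3),
  Val S β → ∃ col, Col2 S β col

/-- [p3] The equations for the values are solvable if and only if no node is odd.  From values:
`b (some (a, i)) = β a i`, `b none = false` and `sg2`.  Conversely, `b` from `sg1` and
`β a i = xor (b (some (a, i))) (b none)`. -/
def S_p3 : Prop := S_sg1 → S_sg2 → ∀ (V : Type) [Fintype V] (S : SimpleGraph V),
  (∃ β, Val S β) ↔ ∀ u, ¬ OddN (L2 S) u

/-! ### D. the algorithm for simple inputs -/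

/-- [alg1] `adjB`, `dgB`, `nbB`, `locB` for the code of a simple graph. -/
def S_alg1 : Prop := ∀ (s : List Bool) (h : IsCode s), (graphOf s h).Simple →
  (∀ a b : Fin (numV s), adjB s a b = true ↔ (sgr (graphOf s h)).Adj a b) ∧
  (∀ a : Fin (numV s), dgB s a = dg (sgr (graphOf s h)) a) ∧
  (∀ (a : Fin (numV s)) (d : ℕ), nbB s a d = nb (sgr (graphOf s h)) a d) ∧
  (locB s = true ↔ Loc (sgr (graphOf s h)))

/-- [alg2] `zeroB`: transport (`sg3`) with `ε (a, b) = a n + b`, and `srch`. -/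
def S_alg2 : Prop := S_alg1 → S_sg3 → S_srch → ∀ (s : List Bool) (h : IsCode s),
  (graphOf s h).Simple → ∀ a : Fin (numV s), zeroB s a = true ↔
    ∃ b, CA (sgr (graphOf s h)) a b ∧ OddN (lnk (sgr (graphOf s h))) (a, b)

/-- [alg3] `l2B`: transport (`sg3`) with `ε (some (a, i)) = 3 a + i`, `ε none = 3 n`, and
`srch`. -/
def S_alg3 : Prop := S_alg1 → S_alg2 → S_sg3 → S_srch → ∀ (s : List Bool) (h : IsCode s),
  (graphOf s h).Simple →
  (((List.range (3 * numV s + 1)).all fun u => !srch (3 * numV s + 1) (l2B s) u) = true ↔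
    ∀ u, ¬ OddN (L2 (sgr (graphOf s h))) u)

/-- [fps] -/
def S_fps : Prop := ∀ (α : Type) [Enc α] (N u : α → ℕ) (L : α → ℕ → ℕ → Bool → Bool),
  FP .poly N → FP .poly u →
  FP .poly (fun q : α × (ℕ × ℕ) => L q.1 q.2.1 q.2.2 false) →
  FP .poly (fun q : α × (ℕ × ℕ) => L q.1 q.2.1 q.2.2 true) →
  FP .poly (fun a => srch (N a) (L a) (u a))

/-- [fpa1] -/
def S_fpa1 : Prop := ∀ (α : Type) [Enc α] (s : α → List Bool) (a b : α → ℕ), FP .poly s →
  FP .poly a → FP .poly b → FP .poly (fun t => adjB (s t) (a t) (b t)) ∧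
    FP .poly (fun t => dgB (s t) (a t)) ∧ FP .poly (fun t => nbB (s t) (a t) (b t)) ∧
    FP .poly (fun t => caB (s t) (a t) (b t)) ∧ FP .poly (fun t => locB (s t))

/-- [fpa2] -/
def S_fpa2 : Prop := S_fps → S_fpa1 → ∀ (α : Type) [Enc α] (s : α → List Bool) (a : α → ℕ),
  FP .poly s → FP .poly a → FP .poly (fun t => zeroB (s t) (a t))

/-- [fpa3] -/
def S_fpa3 : Prop := S_fpa1 → S_fpa2 → ∀ (α : Type) [Enc α] (s : α → List Bool) (p q : α → ℕ)
  (π : Bool), FP .poly s → FP .poly p → FP .poly q → FP .poly (fun t => l2B (s t) (p t) (q t) π)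

/-- [fpa4] -/
def S_fpa4 : Prop := S_fpcb → S_fps → S_fpa1 → S_fpa3 → FP .poly algB

/-! ### E. the graph of an instance -/

/-- [rvi] `rv` is an involution of the darts; it preserves `act`, and it fixes the inactive
ports. -/
def S_rvi : Prop := ∀ (nv M : ℕ) (occ : Fin M → Fin 3 → Fin nv) (d : W nv M × Fin 6),
  rv occ (rv occ d) = d ∧ act (rv occ d).1.2 (rv occ d).2 = act d.1.2 d.2

/-- [actc] The number of active ports is the degree in `HC`. -/
def S_actc : Prop := S_hdeg → ∀ h : HV, (univ.filter fun p => act h p = true).card = HC.deg h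

/-- [snd1] In a covering the cubes have values: first, the degrees (`cvd`, `actc`, `hdeg`) show
that `f` maps `(q, s x)` to some `s y` and `(q, z j u v)` to some `z j u' v'`; the two neighbours
of `(q, z j u v)` at the ports `0, 1` are mapped to different neighbours of `z j u' v'` (`loc` for
the edges `az j y`), so they differ exactly in the bit `j`; all `x` can be reached from `o3` by
changes of bits. -/
def S_snd1 : Prop := S_cvd → S_actc → S_hdeg → ∀ (nv M : ℕ) (occ : Fin M → Fin 3 → Fin nv)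
  (G : Gr) (φ : G.V ≃ W nv M) (Γ : DG G (Dt nv M)), Rz occ G φ Γ →
  ∀ (f : G.V → HV) (γ : Dt nv M → HE), Cv Γ HC f γ → ∃ X : Cb nv M → Q3,
    (∀ q x, f (φ.symm (q, .s x)) = .s (xr x (X q))) ∧
    ∀ q j u v, f (φ.symm (q, .z j u v)) =
      .z j (xor u (X q (j + 1))) (xor v (X q (j + 2)))

/-- [snd2] The conditions for the values: `X (va i k d) ∈ {000, 111}` and `X (cl k d)` has exactly
one `true` (semi-edges: a semi-edge at `(q, s x)` is mapped to a semi-edge, so `xr x (X q) ≠ o3`);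
ports `4, 5`: neighbouring cubes have equal values; links of type `j`: the values agree off `j`. -/
def S_snd2 : Prop := ∀ (nv M : ℕ) (occ : Fin M → Fin 3 → Fin nv)
  (G : Gr) (φ : G.V ≃ W nv M) (Γ : DG G (Dt nv M)), Rz occ G φ Γ →
  ∀ (f : G.V → HV) (γ : Dt nv M → HE), Cv Γ HC f γ → ∀ X : Cb nv M → Q3,
    (∀ q x, f (φ.symm (q, .s x)) = .s (xr x (X q))) →
    (∀ q j u v, f (φ.symm (q, .z j u v)) =
      .z j (xor u (X q (j + 1))) (xor v (X q (j + 2)))) →
    (∀ i k d, isC (X (.va i k d)) = true) ∧ (∀ k d, isE (X (.cl k d)) = true) ∧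
    (∀ i k, X (.va i k true) = X (.va i k false)) ∧
    (∀ i k, X (.va i (finRotate M k) false) = X (.va i k true)) ∧
    ∀ q j i, i ≠ j → X (pt occ q j) i = X q i

/-- [snd3] The solution: `X (va i k d)` does not depend on `k`, `d` (`rot_trans`); `t i` is its
bit. -/
def S_snd3 : Prop := ∀ (nv M : ℕ) (occ : Fin M → Fin 3 → Fin nv) (X : Cb nv M → Q3),
    (∀ i k d, isC (X (.va i k d)) = true) → (∀ k d, isE (X (.cl k d)) = true) →
    (∀ i k, X (.va i k true) = X (.va i k false)) →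
    (∀ i k, X (.va i (finRotate M k) false) = X (.va i k true)) →
    (∀ q j i, i ≠ j → X (pt occ q j) i = X q i) →
    ∃ t : Fin nv → Bool, ∀ k, One (t (occ k 0)) (t (occ k 1)) (t (occ k 2))

/-- [xx] The values of a solution satisfy the conditions. -/
def S_xx : Prop := ∀ (nv M : ℕ) (occ : Fin M → Fin 3 → Fin nv) (t : Fin nv → Bool),
  (∀ k, One (t (occ k 0)) (t (occ k 1)) (t (occ k 2))) →
  (∀ i k d, isC (XX occ t (.va i k d)) = true) ∧ (∀ k d, isE (XX occ t (.cl k d)) = true) ∧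
  (∀ q x p, XX occ t (crv q x p).1 = XX occ t q) ∧
  ∀ q j i, i ≠ j → XX occ t (pt occ q j) i = XX occ t q i

/-- [cmp1] The edge map of the covering: invariance under `rv`, and the ends. -/
def S_cmp1 : Prop := ∀ (nv M : ℕ) (occ : Fin M → Fin 3 → Fin nv) (X : Cb nv M → Q3),
  (∀ i k d, isC (X (.va i k d)) = true) → (∀ k d, isE (X (.cl k d)) = true) →
  (∀ q x p, X (crv q x p).1 = X q) → (∀ q j i, i ≠ j → X (pt occ q j) i = X q i) →
  ∀ d : W nv M × Fin 6, act d.1.2 d.2 = true → γG X (rv occ d) = γG X d ∧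
    (rv occ d = d → HC.ends (γG X d) = {sh (X d.1.1) d.1.2}) ∧
    (rv occ d ≠ d →
      HC.ends (γG X d) = {sh (X d.1.1) d.1.2, sh (X (rv occ d).1.1) (rv occ d).1.2} ∨
      (HC.ends (γG X d) = {sh (X d.1.1) d.1.2} ∧
        sh (X (rv occ d).1.1) (rv occ d).1.2 = sh (X d.1.1) d.1.2))

/-- [cmp2] The local counts. -/
def S_cmp2 : Prop := ∀ (nv M : ℕ) (X : Cb nv M → Q3) (q : Cb nv M) (h : HV) (e : HE),
  (univ.filter fun p : Fin 6 => act h p = true ∧ γG X ((q, h), p) = e).card =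
    (HC.ends e).count (sh (X q) h)

/-- [cmp3] The covering of a solution. -/
def S_cmp3 : Prop := S_xx → S_cmp1 → S_cmp2 → ∀ (nv M : ℕ) (occ : Fin M → Fin 3 → Fin nv)
  (G : Gr) (φ : G.V ≃ W nv M) (Γ : DG G (Dt nv M)), Rz occ G φ Γ → ∀ t : Fin nv → Bool,
  (∀ k, One (t (occ k 0)) (t (occ k 1)) (t (occ k 2))) →
  Cv Γ HC (fun v => sh (XX occ t (φ v).1) (φ v).2) (fun d => γG (XX occ t) d.1)

/-! ### F. the code of the graph of an instance -/

/-- [cd] The code of a graph given by darts.  (The edge of a dart `d` is the row of the smaller one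
of `d` and `rev d`.) -/
def S_cd : Prop := ∀ (N : ℕ) (R : ℕ → ℕ → ℕ → ℕ → Bool) (ac : Fin N → Fin 6 → Bool)
  (rev : Fin N × Fin 6 → Fin N × Fin 6), 0 < N → (∀ d, rev (rev d) = d) →
  (∀ d, ac (rev d).1 (rev d).2 = ac d.1 d.2) →
  (∀ d d' : Fin N × Fin 6, R d.1 d.2 d'.1 d'.2 = true ↔ ac d.1 d.2 = true ∧ d' = rev d) →
  IsCode (codeD N R) ∧ numV (codeD N R) = N ∧ ∀ h : IsCode (codeD N R),
    ∃ (ψ : (graphOf _ h).V ≃ Fin N) (Γ : DG (graphOf _ h) {d : Fin N × Fin 6 // ac d.1 d.2 = true}),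
      (∀ d, ψ (Γ.tail d) = d.1.1) ∧ ∀ d, (Γ.rev d).1 = rev d.1

/-- [vts] The list of names. -/
def S_vts : Prop := ∀ nv M : ℕ, (vertsT nv M).Nodup ∧
  (∀ w : W nv M, nm w ∈ vertsT nv M) ∧ (∀ t ∈ vertsT nv M, ∃ w : W nv M, nm w = t) ∧
  Function.Injective (nm : W nv M → Tn)

/-- [rvt] The functions on names. -/
def S_rvt : Prop := ∀ (nv : ℕ) (T : List (ℕ × ℕ × ℕ)) (hv : 0 < nv),
  (∀ t ∈ T, t.1 < nv ∧ t.2.1 < nv ∧ t.2.2 < nv) → ∀ (w : W nv T.length) (p : Fin 6),
  actT (nm w).2 p = act w.2 p ∧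
  rvT T (nm w) p = (nm (rv (occL nv T hv) (w, p)).1, ((rv (occL nv T hv) (w, p)).2 : ℕ))

/-- [rz] The code is the code of the graph. -/
def S_rz : Prop := S_rvi → S_cd → S_vts → S_rvt → ∀ (nv : ℕ) (T : List (ℕ × ℕ × ℕ)) (hv : 0 < nv),
  T ≠ [] → (∀ t ∈ T, t.1 < nv ∧ t.2.1 < nv ∧ t.2.2 < nv) →
  ∃ (h : IsCode (theCode2 nv T)) (φ : (graphOf _ h).V ≃ W nv T.length)
    (Γ : DG (graphOf _ h) (Dt nv T.length)), Rz (occL nv T hv) (graphOf _ h) φ Γ

/-- [fpv] -/
def S_fpv : Prop := ∀ (α : Type) [Enc α] (nv M : α → ℕ), FP .poly nv → FP .poly M →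
  FP .poly (fun a => vertsT (nv a) (M a))

/-- [fpr] -/
def S_fpr : Prop := ∀ (α : Type) [Enc α] (T : α → List (ℕ × ℕ × ℕ)) (w : α → Tn) (p : α → ℕ),
  FP .poly T → FP .poly w → FP .poly p → FP .poly (fun a => rvT (T a) (w a) (p a)) ∧
    FP .poly (fun a => actT (w a).2 (p a))

/-- [fpc] -/
def S_fpc : Prop := S_fpv → S_fpr → ∀ (α : Type) [Enc α] (nv : α → ℕ) (T : α → List (ℕ × ℕ × ℕ)),
  FP .poly nv → FP .poly T → FP .poly (fun a => theCode2 (nv a) (T a))

end SDich.SC
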